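import Pool.Agent.H88.KA.Small

/-!
# Kaplansky's line game on the integer lattice with two different targets

First needs `k` points, Second needs `l` points of a line without points of the opponent (definitions `Got` and `Wins` in
`Pool/Agent/H88/KA/Game.lean`).  If the smaller target is at most four, then every game except (4, 4) is won by the player with
the smaller target, and by First if the targets are equal.
-/

set_option autoImplicit false

namespace Pool.Agent.Results.MP_bfcd39_co.AsymmetricTargets

open Pool.Agent.H88.KA

theorem result : ∀ k l : ℕ, 1 ≤ k → 1 ≤ l → min k l ≤ 4 → ¬ (k = 4 ∧ l = 4) →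
    (k ≤ l → Wins k l 0) ∧ (l < k → Wins l k 1) := all_games

end Pool.Agent.Results.MP_bfcd39_co.AsymmetricTargets
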