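import Pool.Agent.H89.KapH.Final

/-!
# The biased asymmetric line game on `ℤ²`

Two players claim new points of `ℤ²`, one of them `m` points per turn, the other one `o` points per
turn.  The first one wants an opponent-free `k`-in-a-line, the second one an opponent-free
`l`-in-a-line.  The problem file lists a win for `m = 1` if `l / k ≥ 64 o log (1 + 2 o) / log 2`.
Here: a win for all `m, o` if `l / k ≥ 2 o log (1 + o / m) / log (1 + m) + O(log k / k)`, with an
explicit error term; both roles and both orders of the players are covered.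
-/

set_option autoImplicit false

namespace Pool.Agent.Results.MP_bfcd39_co.BiasedRatio

open Pool.Agent.H89.KapH

/-- The moves are numbered `0, 1, 2, …`, one point per move.  The opponent first claims `r` points,
then the player claims `m` points, the opponent `o` points, the player `m` points, and so on.
`Own m o r n` says that the move number `n` is one of the player's. -/
def Own (m o r n : ℕ) : Prop := r ≤ n % (m + o) ∧ n % (m + o) < r + m

/-- After the moves `p 0, …, p n` the side which makes the moves in `I` has `j` points on a line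
on which the other side has no point. -/
def InLine (I : ℕ → Prop) (j : ℕ) (p : ℕ → ℤ × ℤ) (n : ℕ) : Prop :=
  ∃ a b c : ℤ, (a ≠ 0 ∨ b ≠ 0) ∧
    (∃ J : Finset ℕ, J.card = j ∧ ∀ i ∈ J, i ≤ n ∧ I i ∧ a * (p i).1 + b * (p i).2 = c) ∧
    ∀ i ≤ n, ¬ I i → a * (p i).1 + b * (p i).2 ≠ c

lemma inLine_iff (I : ℕ → Prop) [DecidablePred I] (j : ℕ) (p : ℕ → ℤ × ℤ) (n : ℕ) :
    InLine I j p n ↔ Wins I j p n := by
  constructor
  · rintro ⟨a, b, c, hab, ⟨J, hJ, hJi⟩, hoff⟩
    refine ⟨a, b, c, hab, ?_, fun i hi => hoff i (by have := Finset.mem_range.mp hi; omega)⟩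
    rw [← hJ]
    apply Finset.card_le_card
    intro i hi
    obtain ⟨h1, h2, h3⟩ := hJi i hi
    exact Finset.mem_filter.mpr ⟨Finset.mem_range.mpr (by omega), h2, h3⟩
  · rintro ⟨a, b, c, hab, hcard, hoff⟩
    obtain ⟨J, hJ1, hJ2⟩ := Finset.exists_subset_card_eq hcard
    refine ⟨a, b, c, hab, ⟨J, hJ2, fun i hi => ?_⟩, fun i hi =>
      hoff i (Finset.mem_range.mpr (by omega))⟩
    obtain ⟨h1, h2, h3⟩ := Finset.mem_filter.mp (hJ1 hi)
    exact ⟨by have := Finset.mem_range.mp h1; omega, h2, h3⟩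

/-- The player (`m` points per turn, needs `k ≥ 2` in line) beats the opponent (`o` points per turn,
needs `l` in line; he claims `r ≤ o` points before the player's first turn) if
`l log (1 + m) ≥ o (2 k log (1 + o / m) + 8 log o + 3 log (1 + m) + 14 log k + 48 log 2)`, and he
does so in a turn `t + 1` with `t < 14000 o k ^ 4 (1 + o / m) ^ (k - 1)`. -/
theorem result (m o k l r : ℕ) (hm : 1 ≤ m) (ho : 1 ≤ o) (hk : 2 ≤ k) (hr : r ≤ o)
    (hl : ((m + o) ^ (2 * k) * o ^ 8 * (1 + m) ^ 3 * k ^ 14 * 2 ^ 48) ^ o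
      ≤ m ^ (2 * k * o) * (1 + m) ^ l) :
    ∃ σ : List (ℤ × ℤ) → ℤ × ℤ, (∀ h : List (ℤ × ℤ), σ h ∉ h) ∧
      ∀ p : ℕ → ℤ × ℤ, Function.Injective p →
        (∀ n : ℕ, Own m o r n → p n = σ ((List.range n).map p)) →
        ∃ t i : ℕ, t * m ^ (k - 1) < 14000 * o * k ^ 4 * (m + o) ^ (k - 1) ∧ i < m ∧
          InLine (Own m o r) k p ((m + o) * t + r + i) ∧
          ∀ n < (m + o) * t + r + i, ¬ InLine (fun j => ¬ Own m o r j) l p n := by
  obtain ⟨σ, h1, h2⟩ := final m o k l r hm ho hk hr hl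
  refine ⟨σ, h1, fun p hp hcons => ?_⟩
  obtain ⟨t, i, ht, hi, hw, hno⟩ := h2 p hp hcons
  exact ⟨t, i, ht, hi, (inLine_iff (IM m o r) k p _).mpr hw, fun n hn h =>
    hno n hn ((inLine_iff (fun j => ¬ IM m o r j) l p n).mp h)⟩

end Pool.Agent.Results.MP_bfcd39_co.BiasedRatio
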